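import Pool.Agent.W236.SC.Defs2

/-!
# SC-K: the facet of the identity and crossing a wall
-/

set_option autoImplicit false

namespace Pool.Agent.W591.SC

open Pool.Agent.Helper741 Pool.Agent.W236.SC

variable {B : Type*} [Fintype B] [DecidableEq B] {M : CoxeterMatrix B}
variable {W : Type*} [Group W] (cs : CoxeterSystem M W)

theorem isRt_rt (q : ℕ → B) (U : Finset ℕ) (k : ℕ) : IsRt cs (rt cs q U k) := ⟨_, _, rfl⟩

theorem geo_inv_geo (v : W) (x : B → ℝ) : geo cs v⁻¹ (geo cs v x) = x := by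
  rw [← Module.End.mul_apply, ← map_mul, inv_mul_cancel, map_one, Module.End.one_apply]

theorem geo_geo_inv (v : W) (x : B → ℝ) : geo cs v (geo cs v⁻¹ x) = x := by
  rw [← Module.End.mul_apply, ← map_mul, mul_inv_cancel, map_one, Module.End.one_apply]

theorem pf_agree (q : ℕ → B) (U U' : Finset ℕ) (k : ℕ)
    (h : ∀ j, k ≤ j → (j ∈ U ↔ j ∈ U')) (m : ℕ) (hm : k ≤ m) :
    (pf cs q U k)⁻¹ * pf cs q U m = (pf cs q U' k)⁻¹ * pf cs q U' m := by
  induction m, hm using Nat.le_induction with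
  | base => simp
  | succ m hm ih =>
    by_cases hU : m ∈ U
    · have hU' : m ∈ U' := (h m hm).1 hU
      simp only [pf, if_pos hU, if_pos hU']
      rw [← mul_assoc, ih, mul_assoc]
    · have hU' : m ∉ U' := fun h' => hU ((h m hm).2 h')
      simp only [pf, if_neg hU, if_neg hU']
      exact ih

theorem k0_aux (hB : BaseF cs) (hR : S_ROOTS cs) (n : ℕ) (q : ℕ → B) (ω : W) (U U' : Finset ℕ)
    (hU : IsK cs n q ω 1 U) (hU' : IsK cs n q ω 1 U') (k : ℕ) (hk' : k ∈ U') (hk : k ∉ U)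
    (h : ∀ j, k + 1 ≤ j → (j ∈ U ↔ j ∈ U')) : False := by
  have hkn : k < n := hU'.fac.sub k hk'
  have e1 := pf_agree cs q U U' (k + 1) h n hkn
  rw [hU.fac.prod, hU'.fac.prod] at e1
  have e2 : pf cs q U (k + 1) = pf cs q U' (k + 1) := by
    have := mul_right_cancel e1
    exact inv_injective this
  simp only [pf, if_neg hk, if_pos hk'] at e2
  have e3 : rt cs q U k = - rt cs q U' k := by
    unfold rt
    rw [e2, map_mul, Module.End.mul_apply, geo_simple, sg_ee_self, map_neg]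
  have h1 : 0 ≤ rt cs q U' k := ((hR n q ω U' hU'.fac).1 k hk').1
  have h2 : 0 ≤ rt cs q U k := by
    have := hU.pos k hkn hk
    rwa [inv_one, map_one, Module.End.one_apply] at this
  have h3 : rt cs q U k ≤ 0 := by rw [e3]; exact neg_nonpos.2 h1
  exact hB.rt_ne _ (isRt_rt cs q U k) (le_antisymm h3 h2)

theorem k0 (hB : BaseF cs) (hR : S_ROOTS cs) (hFR : S_FLIPR cs) : S_K0 cs := by
  classical
  intro n q ω hex
  obtain ⟨U0, hU0⟩ := hex
  -- existence
  have hsub : ∀ U, IsFac cs n q ω U → U ∈ (Finset.range n).powerset.filter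
      (fun U => IsFac cs n q ω U) := by
    intro U hU
    rw [Finset.mem_filter, Finset.mem_powerset]
    exact ⟨fun k hk => Finset.mem_range.2 (hU.sub k hk), hU⟩
  obtain ⟨U, hUm, hUmax⟩ := Finset.exists_max_image
    ((Finset.range n).powerset.filter (fun U => IsFac cs n q ω U)) (fun U => ∑ k ∈ U, k)
    ⟨U0, hsub U0 hU0⟩
  have hU : IsFac cs n q ω U := (Finset.mem_filter.1 hUm).2
  have hpos : Pos cs n q U 1 := by
    intro k hkn hk
    rw [inv_one, map_one, Module.End.one_apply]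
    rcases hB.rt_sign _ (isRt_rt cs q U k) with h | h
    · exact h
    · exfalso
      obtain ⟨j, hjU, hjk, hj⟩ := (hR n q ω U hU).2.2.2.2.1 k hkn hk h
      have hF := (hFR n q ω U j k hU hjk hkn hjU hk (by rw [hj, neg_neg])).1
      have h1 : ∑ i ∈ insert k (U.erase j), i ≤ ∑ i ∈ U, i := hUmax _ (hsub _ hF)
      have hk' : k ∉ U.erase j := fun hc => hk (Finset.mem_of_mem_erase hc)
      rw [Finset.sum_insert hk'] at h1
      have h2 : j + ∑ i ∈ U.erase j, i = ∑ i ∈ U, i := Finset.add_sum_erase U (fun k => k) hjU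
      omega
  refine ⟨U, ⟨hU, hpos⟩, ?_⟩
  intro U' hU'
  by_contra hne
  have hD : (symmDiff U U').Nonempty := by
    rw [Finset.nonempty_iff_ne_empty]
    intro hc
    exact hne (symmDiff_eq_bot.1 hc).symm
  set k := (symmDiff U U').max' hD with hk
  have hkm : k ∈ symmDiff U U' := Finset.max'_mem _ hD
  have hgt : ∀ j, k + 1 ≤ j → (j ∈ U ↔ j ∈ U') := by
    intro j hj
    by_contra hc
    have : j ∈ symmDiff U U' := by
      rw [Finset.mem_symmDiff]
      tauto
    have := Finset.le_max' _ j this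
    omega
  rw [Finset.mem_symmDiff] at hkm
  rcases hkm with ⟨h1, h2⟩ | ⟨h1, h2⟩
  · exact k0_aux cs hB hR n q ω U' U hU' ⟨hU, hpos⟩ k h1 h2 (fun j hj => (hgt j hj).symm)
  · exact k0_aux cs hB hR n q ω U U' ⟨hU, hpos⟩ hU' k h1 h2 hgt

section cross

variable {cs}

theorem inv_mul_simple (v : W) (s : B) : (v * cs.simple s)⁻¹ = cs.simple s * v⁻¹ := by
  rw [mul_inv_rev, cs.inv_simple]

theorem factA (hB : BaseF cs) (v : W) (s : B) (r : B → ℝ) (hr : IsRt cs r)
    (h0 : 0 ≤ geo cs v⁻¹ r) (hne : r ≠ geo cs v (ee s)) :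
    0 ≤ geo cs (v * cs.simple s)⁻¹ r := by
  rw [inv_mul_simple, map_mul, Module.End.mul_apply]
  refine hB.rt_simple _ _ (hB.rt_geo _ _ hr) h0 ?_
  intro h
  apply hne
  rw [← h, geo_geo_inv]

theorem factB (hB : BaseF cs) (v : W) (s : B) (r : B → ℝ) (hr : IsRt cs r)
    (h0 : 0 ≤ geo cs (v * cs.simple s)⁻¹ r) (hne : r ≠ - geo cs v (ee s)) :
    0 ≤ geo cs v⁻¹ r := by
  have e : v⁻¹ = cs.simple s * (v * cs.simple s)⁻¹ := by
    rw [inv_mul_simple, ← mul_assoc, cs.simple_mul_simple_self, one_mul]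
  rw [e, map_mul, Module.End.mul_apply]
  refine hB.rt_simple _ _ (hB.rt_geo _ _ hr) h0 ?_
  intro h
  apply hne
  have h2 := congrArg (geo cs (v * cs.simple s)) h
  rw [geo_geo_inv, map_mul, Module.End.mul_apply, geo_simple, sg_ee_self, map_neg] at h2
  exact h2

end cross

theorem cross (hB : BaseF cs) (hR : S_ROOTS cs) (hF : S_FLIP cs) (hFR : S_FLIPR cs) :
    S_CROSS cs := by
  intro n q ω v s U hlen
  have hb0 : 0 ≤ geo cs v (ee s) := (geo_nonneg_iff cs v s).2 hlen
  have hbR : IsRt cs (geo cs v (ee s)) := ⟨v, s, rfl⟩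
  refine ⟨?_, ?_, ?_, ?_⟩
  · intro hK hne
    exact ⟨hK.fac, fun k hkn hk => factA hB v s _ (isRt_rt cs q U k) (hK.pos k hkn hk)
      (hne k hkn hk)⟩
  · intro hK g hgn hg hrg hfirst hom
    obtain ⟨hR1, hR2, hR3, hR4, hR5, hR6⟩ := hR n q ω U hK.fac
    obtain ⟨g', hg'U, hg'⟩ := hR2 _ hbR hb0 hom
    have hg'n : g' < n := hK.fac.sub g' hg'U
    have hgg : g < g' := by
      rcases lt_trichotomy g g' with h | h | h
      · exact h
      · rw [h] at hg; exact absurd hg'U hg
      · exact absurd (hrg.trans hg'.symm) (hR6 g' hg'U g h hgn)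
    obtain ⟨f1, f2, f3, f4, -⟩ := hF n q ω U g g' hK.fac hgg hg hg'U (hrg.trans hg'.symm)
    refine ⟨g', hgg, hg'n, hg'U, hg', f1, ?_⟩
    intro k hkn hk
    have hkg : k ≠ g := fun h => hk (h ▸ Finset.mem_insert_self _ _)
    have hkU : k ≠ g' → k ∉ U := fun h hc =>
      hk (Finset.mem_insert_of_mem (Finset.mem_erase.2 ⟨h, hc⟩))
    have hmid : ∀ x, geo cs (v * cs.simple s)⁻¹ (x - frm M (rt cs q U g) x • rt cs q U g) =
        geo cs v⁻¹ x := by
      intro x
      rw [hrg, ← hB.refl v s x, ← Module.End.mul_apply, ← map_mul]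
      congr 2
      group
    rcases lt_trichotomy k g with h | h | h
    · rw [f2 k h.le]
      have hkU' := hkU (by omega)
      exact factA hB v s _ (isRt_rt cs q U k) (hK.pos k hkn hkU') (hfirst k h hkU')
    · exact absurd h hkg
    · rcases lt_trichotomy k g' with h' | h' | h'
      · rw [f4 k h h'.le, hmid]
        exact hK.pos k hkn (hkU h'.ne)
      · rw [f4 k h h'.le, hmid, h', hg', geo_inv_geo]
        exact ee_nonneg s
      · rw [f3 k h']
        have hkU' := hkU (by omega)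
        exact factA hB v s _ (isRt_rt cs q U k) (hK.pos k hkn hkU')
          (fun hc => hR6 g' hg'U k h' hkn (hc.trans hg'.symm))
  · intro hK hne
    exact ⟨hK.fac, fun k hkn hk => factB hB v s _ (isRt_rt cs q U k) (hK.pos k hkn hk)
      (hne k hkn hk)⟩
  · intro hK g' hg'n hg' hrg hlast
    obtain ⟨hR1, hR2, hR3, hR4, hR5, hR6⟩ := hR n q ω U hK.fac
    have hle : rt cs q U g' ≤ 0 := by rw [hrg]; exact neg_nonpos.2 hb0
    obtain ⟨g, hgU, hgg, hg⟩ := hR5 g' hg'n hg' hle
    have hgb : rt cs q U g = geo cs v (ee s) := by rw [hg, hrg, neg_neg]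
    obtain ⟨f1, f2, f3, f4⟩ := hFR n q ω U g g' hK.fac hgg hg'n hgU hg' (by rw [hg, neg_neg])
    refine ⟨g, hgg, hgU, hgb, f1, ?_⟩
    intro k hkn hk
    have hkg : k ≠ g' := fun h => hk (h ▸ Finset.mem_insert_self _ _)
    have hkU : k ≠ g → k ∉ U := fun h hc =>
      hk (Finset.mem_insert_of_mem (Finset.mem_erase.2 ⟨h, hc⟩))
    have hmid : ∀ x, geo cs v⁻¹ (x - frm M (rt cs q U g) x • rt cs q U g) =
        geo cs (v * cs.simple s)⁻¹ x := by
      intro x
      rw [hgb, ← hB.refl v s x, ← Module.End.mul_apply, ← map_mul, inv_mul_simple]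
      congr 2
      group
    rcases lt_trichotomy k g with h | h | h
    · rw [f2 k h.le]
      have hkU' := hkU h.ne
      refine factB hB v s _ (isRt_rt cs q U k) (hK.pos k hkn hkU') ?_
      intro hc
      have hle' : rt cs q U k ≤ 0 := by rw [hc]; exact neg_nonpos.2 hb0
      obtain ⟨j, hjU, hjk, hj⟩ := hR5 k hkn hkU' hle'
      have := hR3 j hjU g hgU (by rw [hj, hc, neg_neg, hgb])
      omega
    · rw [f2 k h.le, h, hgb, geo_inv_geo]
      exact ee_nonneg s
    · rcases lt_trichotomy k g' with h' | h' | h'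
      · rw [f4 k h h'.le, hmid]
        exact hK.pos k hkn (hkU h.ne')
      · exact absurd h' hkg
      · rw [f3 k h']
        have hkU' := hkU (by omega)
        exact factB hB v s _ (isRt_rt cs q U k) (hK.pos k hkn hkU') (hlast k h' hkn hkU')

end Pool.Agent.W591.SC
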