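import Pool.Agent.W236.SC.Defs2

/-!
# SC-SIMP: plane roots at the bottom and top of a polygon are simple
-/

set_option autoImplicit false

namespace Pool.Agent.W591.SC

open Pool.Agent.Helper741 Pool.Agent.W236.SC

section nat

theorem exists_last (Q : ℕ → Prop) (k : ℕ) (h : ∃ j, j < k ∧ Q j) :
    ∃ p, p < k ∧ Q p ∧ ∀ j, p < j → j < k → ¬ Q j := by
  classical
  obtain ⟨j, hj, hQ⟩ := h
  refine ⟨Nat.findGreatest (fun i => i < k ∧ Q i) k, ?_⟩
  have hs := Nat.findGreatest_spec (P := fun i => i < k ∧ Q i) (n := k) hj.le ⟨hj, hQ⟩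
  refine ⟨hs.1, hs.2, fun i hi hik hQi => ?_⟩
  exact Nat.findGreatest_is_greatest hi hik.le ⟨hik, hQi⟩

theorem exists_first (Q : ℕ → Prop) (k : ℕ) (h : ∃ j, k < j ∧ Q j) :
    ∃ p, k < p ∧ Q p ∧ ∀ j, k < j → j < p → ¬ Q j := by
  classical
  refine ⟨Nat.find h, (Nat.find_spec h).1, (Nat.find_spec h).2, fun j hj hjp hQ => ?_⟩
  exact Nat.find_min h hjp ⟨hj, hQ⟩

end nat

variable {B : Type*} [Fintype B] [DecidableEq B] {M : CoxeterMatrix B}
variable {W : Type*} [Group W] {cs : CoxeterSystem M W}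

theorem ee_inj {x y : B} (h : (ee x : B → ℝ) = ee y) : x = y := by
  by_contra hne
  have := congrFun h x
  simp [ee, Pi.single_apply, hne] at this

theorem not_both (d : W) (z : B) (h1 : 0 ≤ geo cs d (ee z)) (h2 : geo cs d (ee z) ≤ 0) : False :=
  geo_ee_ne_zero cs d z (le_antisymm h2 h1)

theorem flip_neg (d : W) (z : B) : geo cs (d * cs.simple z) (ee z) = - geo cs d (ee z) := by
  rw [map_mul, Module.End.mul_apply, geo_simple, sg_ee_self, map_neg]

theorem ginv_g (v : W) (x : B → ℝ) : geo cs v⁻¹ (geo cs v x) = x := by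
  rw [← Module.End.mul_apply, ← map_mul, inv_mul_cancel, map_one, Module.End.one_apply]

theorem g_ginv (v : W) (x : B → ℝ) : geo cs v (geo cs v⁻¹ x) = x := by
  rw [← Module.End.mul_apply, ← map_mul, mul_inv_cancel, map_one, Module.End.one_apply]

/-- decomposition of a vector supported in the plane -/
theorem plane_dec {x y : B} (hxy : x ≠ y) (v : B → ℝ) (hv : ∀ i, i ≠ x → i ≠ y → v i = 0) :
    v = v x • ee x + v y • ee y := by
  funext i
  by_cases h1 : i = x
  · subst h1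
    simp [ee, Pi.single_apply, hxy]
  · by_cases h2 : i = y
    · subst h2
      simp [ee, Pi.single_apply, h1]
    · simp [ee, Pi.single_apply, h1, h2, hv i h1 h2]

theorem plane_nonneg {x y : B} (hxy : x ≠ y) (g : W) (v : B → ℝ)
    (hv : ∀ i, i ≠ x → i ≠ y → v i = 0) (hx : 0 ≤ geo cs g (ee x)) (hy : 0 ≤ geo cs g (ee y))
    (h0 : 0 ≤ v) : 0 ≤ geo cs g v := by
  rw [plane_dec hxy v hv, map_add, map_smul, map_smul]
  exact add_nonneg (smul_nonneg (h0 x) hx) (smul_nonneg (h0 y) hy)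

theorem plane_nonpos {x y : B} (hxy : x ≠ y) (g : W) (v : B → ℝ)
    (hv : ∀ i, i ≠ x → i ≠ y → v i = 0) (hx : 0 ≤ geo cs g (ee x)) (hy : 0 ≤ geo cs g (ee y))
    (h0 : v ≤ 0) : geo cs g v ≤ 0 := by
  have h1 := plane_nonneg hxy g (-v) (fun i hi hj => by simp [hv i hi hj]) hx hy
    (neg_nonneg.2 h0)
  rw [map_neg] at h1
  exact neg_nonneg.1 h1

theorem plane_nonpos' {x y : B} (hxy : x ≠ y) (g : W) (v : B → ℝ)
    (hv : ∀ i, i ≠ x → i ≠ y → v i = 0) (hx : geo cs g (ee x) ≤ 0) (hy : geo cs g (ee y) ≤ 0)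
    (h0 : 0 ≤ v) : geo cs g v ≤ 0 := by
  rw [plane_dec hxy v hv, map_add, map_smul, map_smul]
  exact add_nonpos (smul_nonpos_of_nonneg_of_nonpos (h0 x) hx)
    (smul_nonpos_of_nonneg_of_nonpos (h0 y) hy)

theorem dih_const {n : ℕ} {b : W} {x y : B} {q : ℕ → B} {U : Finset ℕ} {d h : ℕ → W}
    (D : Dih cs n b x y q U d h) (a c : ℕ) (hac : a ≤ c) (hc : c ≤ n)
    (hno : ∀ j, a ≤ j → j < c → PsiAt cs b x y q U j → j ∉ U) : d c = d a := by
  induction c, hac using Nat.le_induction with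
  | base => rfl
  | succ m hm ih =>
    rw [← ih (by omega) (fun j h1 h2 => hno j h1 (by omega))]
    have hmn : m < n := by omega
    by_cases hP : PsiAt cs b x y q U m
    · have hU := hno m hm (by omega) hP
      rcases (D.psi m hmn).1 hP with hz | hz
      · exact (D.psiD m hmn x (Or.inl rfl) hz).2 hU
      · exact (D.psiD m hmn y (Or.inr rfl) hz).2 hU
    · exact D.nonD m hmn hP

theorem psiAt_swap {b : W} {x y : B} {q : ℕ → B} {U : Finset ℕ} {k : ℕ} :
    PsiAt cs b x y q U k ↔ PsiAt cs b y x q U k := by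
  unfold PsiAt
  constructor <;>
  · intro h i hi hj
    exact h i hj hi

theorem dih_swap {n : ℕ} {b : W} {x y : B} {q : ℕ → B} {U : Finset ℕ} {d h : ℕ → W}
    (D : Dih cs n b x y q U d h) : Dih cs n b y x q U d h where
  d0 := D.d0
  h0 := D.h0
  dec := D.dec
  dmem := by
    intro k hk
    rw [Set.pair_comm]
    exact D.dmem k hk
  hs := D.ht
  ht := D.hs
  psi := by
    intro k hk
    rw [psiAt_swap, D.psi k hk, or_comm]
  psiH := by
    intro k hk h
    exact D.psiH k hk (psiAt_swap.1 h)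
  psiD := by
    intro k hk z hz
    exact D.psiD k hk z hz.symm
  nonD := by
    intro k hk h
    exact D.nonD k hk (fun h' => h (psiAt_swap.1 h'))
  nonU := by
    intro k hk h
    exact D.nonU k hk (fun h' => h (psiAt_swap.1 h'))
  nonS := by
    intro k hk h
    exact D.nonS k hk (fun h' => h (psiAt_swap.1 h'))

theorem same_swap {n : ℕ} {b : W} {x y : B} {q : ℕ → B} {U U' : Finset ℕ}
    (S : Same cs n b x y q U U') : Same cs n b y x q U U' := by
  intro k hk
  rw [psiAt_swap (x := y), psiAt_swap (x := y)]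
  exact S k hk

variable (cs) in
/-- everything which is needed, symmetric in `x`, `y` -/
structure Ctx (n : ℕ) (q : ℕ → B) (ω b : W) (x y : B) (I0 I1 : Finset ℕ) (d0 d1 h : ℕ → W) :
    Prop where
  alt : AltM M n q
  xy : x ≠ y
  m2 : M x y ≠ 2
  m0 : M x y ≠ 0
  lx : cs.length b < cs.length (b * cs.simple x)
  ly : cs.length b < cs.length (b * cs.simple y)
  F0 : IsFac cs n q ω I0
  F1 : IsFac cs n q ω I1
  same : Same cs n b x y q I0 I1
  D0 : Dih cs n b x y q I0 d0 h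
  D1 : Dih cs n b x y q I1 d1 h
  A0 : ∀ k, k < n → ∀ z, (z = x ∨ z = y) → geo cs (h k) (ee (q k)) = ee z →
    0 ≤ geo cs (d0 k) (ee z)
  A1 : ∀ k, k < n → k ∈ I1 → ∀ z, (z = x ∨ z = y) → geo cs (h k) (ee (q k)) = ee z →
    0 ≤ geo cs (d1 k) (ee z)
  C1 : ∀ k, k < n → k ∉ I1 → ∀ z, (z = x ∨ z = y) → geo cs (h k) (ee (q k)) = ee z →
    geo cs (d1 k) (ee z) ≤ 0
  N0x : geo cs (d0 n) (ee x) ≤ 0
  N0y : geo cs (d0 n) (ee y) ≤ 0
  N1x : geo cs (d1 n) (ee x) ≤ 0
  N1y : geo cs (d1 n) (ee y) ≤ 0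
  pos : ∀ k, k < n → ¬ PsiAt cs b x y q I0 k → k ∉ I0 → 0 ≤ geo cs (h k) (ee (q k))

theorem Ctx.swap {n : ℕ} {q : ℕ → B} {ω b : W} {x y : B} {I0 I1 : Finset ℕ} {d0 d1 h : ℕ → W}
    (c : Ctx cs n q ω b x y I0 I1 d0 d1 h) : Ctx cs n q ω b y x I0 I1 d0 d1 h where
  alt := c.alt
  xy := c.xy.symm
  m2 := by rw [M.symmetric]; exact c.m2
  m0 := by rw [M.symmetric]; exact c.m0
  lx := c.ly
  ly := c.lx
  F0 := c.F0
  F1 := c.F1
  same := same_swap c.same
  D0 := dih_swap c.D0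
  D1 := dih_swap c.D1
  A0 := fun k hk z hz => c.A0 k hk z hz.symm
  A1 := fun k hk hU z hz => c.A1 k hk hU z hz.symm
  C1 := fun k hk hU z hz => c.C1 k hk hU z hz.symm
  N0x := c.N0y
  N0y := c.N0x
  N1x := c.N1y
  N1y := c.N1x
  pos := fun k hk h => c.pos k hk (fun h' => h (psiAt_swap.1 h'))

theorem core1 (hA2 : S_ALT2 cs) (hPl : S_PLANE cs) {n : ℕ} {q : ℕ → B} {ω b : W} {x y : B}
    {I0 I1 : Finset ℕ} {d0 d1 h : ℕ → W} (c : Ctx cs n q ω b x y I0 I1 d0 d1 h)
    (k : ℕ) (hk : k < n) (hkU : k ∉ I0) (hkx : geo cs (h k) (ee (q k)) = ee x) :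
    geo cs (d0 k) (ee x) = ee x ∨ geo cs (d0 k) (ee x) = ee y := by
  by_contra hcon
  push Not at hcon
  obtain ⟨hc1, hc2⟩ := hcon
  have hPk : PsiAt cs b x y q I0 k := (c.D0.psi k hk).2 (Or.inl hkx)
  have hφ : 0 ≤ geo cs (d0 k) (ee x) := c.A0 k hk x (Or.inl rfl) hkx
  -- the last used position before `k`
  have hex1 : ∃ j, j < k ∧ (PsiAt cs b x y q I0 j ∧ j ∈ I0) := by
    by_contra hno
    push Not at hno
    have h1 := dih_const c.D0 0 k (Nat.zero_le _) hk.le (fun j _ hj hP => hno j hj hP)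
    apply hc1
    rw [h1, c.D0.d0, map_one, Module.End.one_apply]
  obtain ⟨p, hpk, ⟨hpP, hpU⟩, hplast⟩ := exists_last _ k hex1
  have hpn : p < n := by omega
  have hd1 : ∀ j, p < j → j ≤ k → d0 j = d0 k := by
    intro j hj hjk
    refine (dih_const c.D0 j k hjk hk.le (fun i hi hik hP hU => ?_)).symm
    exact hplast i (by omega) hik ⟨hP, hU⟩
  have hpy : geo cs (h p) (ee (q p)) = ee y ∧ geo cs (d0 k) (ee y) ≤ 0 := by
    rcases (c.D0.psi p hpn).1 hpP with hz | hz
    · exfalso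
      have e1 := (c.D0.psiD p hpn x (Or.inl rfl) hz).1 hpU
      have e2 := c.A0 p hpn x (Or.inl rfl) hz
      rw [hd1 (p + 1) (by omega) (by omega)] at e1
      refine not_both (d0 k) x hφ ?_
      rw [e1, flip_neg]
      exact neg_nonpos.2 e2
    · refine ⟨hz, ?_⟩
      have e1 := (c.D0.psiD p hpn y (Or.inr rfl) hz).1 hpU
      have e2 := c.A0 p hpn y (Or.inr rfl) hz
      rw [hd1 (p + 1) (by omega) (by omega)] at e1
      rw [e1, flip_neg]
      exact neg_nonpos.2 e2
  obtain ⟨hpy, hneg⟩ := hpy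
  -- the first used position after `k`
  have hex2 : ∃ j, k < j ∧ (PsiAt cs b x y q I0 j ∧ j ∈ I0) := by
    by_contra hno
    push Not at hno
    have h1 := dih_const c.D0 k n hk.le le_rfl (fun j hj _ hP hU => by
      rcases hj.eq_or_lt with h2 | h2
      · exact hkU (h2 ▸ hU)
      · exact hno j h2 hP hU)
    exact not_both (d0 k) x hφ (h1 ▸ c.N0x)
  obtain ⟨p', hkp', ⟨hp'P, hp'U⟩, hp'first⟩ := exists_first _ k hex2
  have hp'n : p' < n := c.F0.sub p' hp'U
  have hd2 : ∀ j, k ≤ j → j ≤ p' → d0 j = d0 k := by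
    intro j hj hjp
    refine dih_const c.D0 k j hj (by omega) (fun i hi hij hP hU => ?_)
    rcases hi.eq_or_lt with h2 | h2
    · exact hkU (h2 ▸ hU)
    · exact hp'first i h2 (by omega) ⟨hP, hU⟩
  have hty : ∀ j, p < j → j ≤ p' → PsiAt cs b x y q I0 j → geo cs (h j) (ee (q j)) = ee x := by
    intro j hj1 hj2 hP
    have hjn : j < n := by omega
    rcases (c.D0.psi j hjn).1 hP with hz | hz
    · exact hz
    · exfalso
      have hd : d0 j = d0 k := by
        rcases le_total j k with h2 | h2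
        · exact hd1 j hj1 h2
        · exact hd2 j h2 hj2
      have := c.A0 j hjn y (Or.inr rfl) hz
      rw [hd] at this
      exact not_both (d0 k) y this hneg
  have hp'x := hty p' (by omega) le_rfl hp'P
  have hd3 : d0 (p' + 1) = d0 k * cs.simple x := by
    rw [(c.D0.psiD p' hp'n x (Or.inl rfl) hp'x).1 hp'U, hd2 p' hkp'.le le_rfl]
  have hneg2 : geo cs (d0 (p' + 1)) (ee x) = - geo cs (d0 k) (ee x) := by
    rw [hd3, flip_neg]
  have hex3 : ∃ j, p' < j ∧ (PsiAt cs b x y q I0 j ∧ j ∈ I0) := by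
    by_contra hno
    push Not at hno
    have h1 := dih_const c.D0 (p' + 1) n (by omega) le_rfl
      (fun j hj _ hP hU => hno j (by omega) hP hU)
    obtain ⟨-, h2⟩ := hPl x y c.xy (d0 n) (c.D0.dmem n le_rfl)
    obtain ⟨h3, -⟩ := h2 c.N0x c.N0y
    rw [h1, hneg2, neg_neg] at h3
    rcases h3 with h3 | h3
    · exact hc1 h3
    · exact hc2 h3
  obtain ⟨p'', hp'p'', ⟨hp''P, hp''U⟩, hp''first⟩ := exists_first _ p' hex3
  have hp''n : p'' < n := c.F0.sub p'' hp''U
  have hty2 : ∀ j, p' < j → j ≤ p'' → PsiAt cs b x y q I0 j →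
      geo cs (h j) (ee (q j)) = ee y := by
    intro j hj1 hj2 hP
    have hjn : j < n := by omega
    rcases (c.D0.psi j hjn).1 hP with hz | hz
    · exfalso
      have hd : d0 j = d0 (p' + 1) := by
        refine dih_const c.D0 (p' + 1) j (by omega) (by omega) (fun i hi hij hP hU => ?_)
        exact hp''first i (by omega) (by omega) ⟨hP, hU⟩
      have h1 := c.A0 j hjn x (Or.inl rfl) hz
      rw [hd] at h1
      refine not_both (d0 (p' + 1)) x h1 ?_
      rw [hneg2]
      exact neg_nonpos.2 hφ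
    · exact hz
  -- the four positions
  obtain ⟨M0, hM1, hMP, hMfirst⟩ := exists_first (fun j => PsiAt cs b x y q I0 j) p'
    ⟨p'', hp'p'', hp''P⟩
  have hMle : M0 ≤ p'' := by
    by_contra hc
    exact hMfirst p'' hp'p'' (by omega) hp''P
  obtain ⟨k1, hk1, hk1P, hk1first⟩ := exists_first (fun j => PsiAt cs b x y q I0 j) p
    ⟨k, hpk, hPk⟩
  have hk1le : k1 ≤ k := by
    by_contra hc
    exact hk1first k hpk (by omega) hPk
  obtain ⟨k2, hk2, hk2P, hk2first⟩ := exists_first (fun j => PsiAt cs b x y q I0 j) k1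
    ⟨p', by omega, hp'P⟩
  have hk2le : k2 ≤ p' := by
    by_contra hc
    exact hk2first p' (by omega) (by omega) hp'P
  have hk1x := hty k1 hk1 (by omega) hk1P
  have hk2x := hty k2 (by omega) hk2le hk2P
  have hM0y := hty2 M0 hM1 hMle hMP
  have htyM : ∀ j, p < j → j < M0 → PsiAt cs b x y q I0 j →
      geo cs (h j) (ee (q j)) = ee x := by
    intro j hj1 hj2 hP
    rcases le_or_gt j p' with h2 | h2
    · exact hty j hj1 h2 hP
    · exact absurd hP (hMfirst j h2 hj2)
  have huse : ∀ j, p < j → j < M0 → PsiAt cs b x y q I0 j → j ∈ I0 → j = p' := by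
    intro j hj1 hj2 hP hU
    rcases lt_trichotomy j k with h2 | h2 | h2
    · exact absurd ⟨hP, hU⟩ (hplast j hj1 h2)
    · exact absurd (h2 ▸ hU) hkU
    · rcases lt_trichotomy j p' with h3 | h3 | h3
      · exact absurd ⟨hP, hU⟩ (hp'first j h2 h3)
      · exact h3
      · exact absurd hP (hMfirst j h3 hj2)
  refine hA2 n q ω b x y I0 I1 p k1 k2 M0 d0 d1 h c.alt c.xy c.m2 c.m0 c.lx c.ly c.F0 c.F1
    c.same c.D0 c.D1 hk1 hk2 (by omega) (by omega) hpy hM0y hk1x hk2x htyM hk2first ?_ ?_ ?_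
  · intro j _ hj hP hU
    exact c.pos j (by omega) hP hU
  · intro j hj1 hj2 hP hU
    have e := huse j hj1 hj2 hP hU
    refine ⟨by omega, fun j' h1 h2 h3 h4 => ?_⟩
    rw [e, huse j' h1 h2 h3 h4]
  · intro u hu1 hu2 huP huU
    have hun : u < n := by omega
    have huP0 : PsiAt cs b x y q I0 u := ((c.same u hun).1).2 huP
    by_contra hne
    have hk1u : k1 < u := by
      rcases lt_trichotomy k1 u with h2 | h2 | h2
      · exact h2
      · exact absurd h2.symm hne
      · exact absurd huP0 (hk1first u hu1 h2)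
    obtain ⟨u', hu'1, ⟨hu'P, hu'U⟩, hu'first⟩ := exists_first
      (fun j => PsiAt cs b x y q I1 j ∧ j ∈ I1) k1 ⟨u, hk1u, huP, huU⟩
    have hu'le : u' ≤ u := by
      by_contra hc
      exact hu'first u hk1u (by omega) ⟨huP, huU⟩
    have hu'n : u' < n := by omega
    have hu'P0 : PsiAt cs b x y q I0 u' := ((c.same u' hu'n).1).2 hu'P
    have hu'x := htyM u' (by omega) (by omega) hu'P0
    have hpos := c.A1 u' hu'n hu'U x (Or.inl rfl) hu'x
    have hd : d1 u' = d1 (k1 + 1) :=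
      dih_const c.D1 (k1 + 1) u' (by omega) (by omega)
        (fun i hi hij hP hU => hu'first i (by omega) hij ⟨hP, hU⟩)
    have hk1n : k1 < n := by omega
    by_cases hk1U : k1 ∈ I1
    · have e1 := (c.D1.psiD k1 hk1n x (Or.inl rfl) hk1x).1 hk1U
      have e2 := c.A1 k1 hk1n hk1U x (Or.inl rfl) hk1x
      refine not_both (d1 u') x hpos ?_
      rw [hd, e1, flip_neg]
      exact neg_nonpos.2 e2
    · have e1 := (c.D1.psiD k1 hk1n x (Or.inl rfl) hk1x).2 hk1U
      have e2 := c.C1 k1 hk1n hk1U x (Or.inl rfl) hk1x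
      refine not_both (d1 u') x hpos ?_
      rw [hd, e1]
      exact e2

theorem core2 (hA2 : S_ALT2 cs) (hPl : S_PLANE cs) {n : ℕ} {q : ℕ → B} {ω b : W} {x y : B}
    {I0 I1 : Finset ℕ} {d0 d1 h : ℕ → W} (c : Ctx cs n q ω b x y I0 I1 d0 d1 h)
    (k : ℕ) (hk : k < n) (hkU : k ∉ I1) (hkx : geo cs (h k) (ee (q k)) = ee x) :
    geo cs (d1 k) (ee x) = - ee x ∨ geo cs (d1 k) (ee x) = - ee y := by
  by_contra hcon
  push Not at hcon
  obtain ⟨hc1, hc2⟩ := hcon
  have hPk : PsiAt cs b x y q I1 k := (c.D1.psi k hk).2 (Or.inl hkx)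
  have hφ : geo cs (d1 k) (ee x) ≤ 0 := c.C1 k hk hkU x (Or.inl rfl) hkx
  have hky : 0 ≤ geo cs (d1 k) (ee y) := by
    rcases le_total 0 (cs.length (d1 k)) with _ | _ <;>
    · by_contra hc
      have hlt : cs.length (d1 k * cs.simple y) < cs.length (d1 k) := by
        rw [geo_nonneg_iff] at hc
        rcases cs.length_mul_simple (d1 k) y with h1 | h1 <;> omega
      have hneg : geo cs (d1 k) (ee y) ≤ 0 := (geo_nonpos_iff cs _ _).2 hlt
      obtain ⟨-, h2⟩ := hPl x y c.xy (d1 k) (c.D1.dmem k hk.le)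
      obtain ⟨h3, -⟩ := h2 hφ hneg
      rcases h3 with h3 | h3
      · exact hc1 (neg_eq_iff_eq_neg.1 h3)
      · exact hc2 (neg_eq_iff_eq_neg.1 h3)
  -- the last used position before `k`
  have hex1 : ∃ j, j < k ∧ (PsiAt cs b x y q I1 j ∧ j ∈ I1) := by
    by_contra hno
    push Not at hno
    have h1 := dih_const c.D1 0 k (Nat.zero_le _) hk.le (fun j _ hj hP => hno j hj hP)
    refine not_both (d1 k) x ?_ hφ
    rw [h1, c.D1.d0, map_one, Module.End.one_apply]
    exact ee_nonneg x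
  obtain ⟨p', hp'k, ⟨hp'P, hp'U⟩, hp'last⟩ := exists_last _ k hex1
  have hp'n : p' < n := by omega
  have hd1 : ∀ j, p' < j → j ≤ k → d1 j = d1 k := by
    intro j hj hjk
    refine (dih_const c.D1 j k hjk hk.le (fun i hi hik hP hU => ?_)).symm
    exact hp'last i (by omega) hik ⟨hP, hU⟩
  have hp'x : geo cs (h p') (ee (q p')) = ee x := by
    rcases (c.D1.psi p' hp'n).1 hp'P with hz | hz
    · exact hz
    · exfalso
      have e1 := (c.D1.psiD p' hp'n y (Or.inr rfl) hz).1 hp'U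
      have e2 := c.A1 p' hp'n hp'U y (Or.inr rfl) hz
      rw [hd1 (p' + 1) (by omega) (by omega)] at e1
      refine not_both (d1 k) y hky ?_
      rw [e1, flip_neg]
      exact neg_nonpos.2 e2
  have hdk : d1 k = d1 p' * cs.simple x := by
    rw [← (c.D1.psiD p' hp'n x (Or.inl rfl) hp'x).1 hp'U]
    exact (hd1 (p' + 1) (by omega) (by omega)).symm
  have hp'pos : 0 ≤ geo cs (d1 p') (ee x) := c.A1 p' hp'n hp'U x (Or.inl rfl) hp'x
  -- the last used one before `p'`
  have hex2 : ∃ j, j < p' ∧ (PsiAt cs b x y q I1 j ∧ j ∈ I1) := by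
    by_contra hno
    push Not at hno
    have h1 := dih_const c.D1 0 p' (Nat.zero_le _) hp'n.le (fun j _ hj hP => hno j hj hP)
    apply hc1
    rw [hdk, flip_neg, h1, c.D1.d0, map_one, Module.End.one_apply]
  obtain ⟨p, hpp', ⟨hpP, hpU⟩, hplast⟩ := exists_last _ p' hex2
  have hpn : p < n := by omega
  have hd2 : ∀ j, p < j → j ≤ p' → d1 j = d1 p' := by
    intro j hj hjk
    refine (dih_const c.D1 j p' hjk hp'n.le (fun i hi hik hP hU => ?_)).symm
    exact hplast i (by omega) hik ⟨hP, hU⟩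
  have hpy : geo cs (h p) (ee (q p)) = ee y := by
    rcases (c.D1.psi p hpn).1 hpP with hz | hz
    · exfalso
      have e1 := (c.D1.psiD p hpn x (Or.inl rfl) hz).1 hpU
      have e2 := c.A1 p hpn hpU x (Or.inl rfl) hz
      rw [hd2 (p + 1) (by omega) (by omega)] at e1
      refine not_both (d1 p') x hp'pos ?_
      rw [e1, flip_neg]
      exact neg_nonpos.2 e2
    · exact hz
  have hty1 : ∀ j, p ≤ j → j < p' → PsiAt cs b x y q I1 j →
      geo cs (h j) (ee (q j)) = ee y := by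
    intro j hj1 hj2 hP
    rcases hj1.eq_or_lt with h2 | h2
    · rw [← h2]; exact hpy
    have hjn : j < n := by omega
    rcases (c.D1.psi j hjn).1 hP with hz | hz
    · exfalso
      have hjU : j ∉ I1 := fun hU => hplast j h2 hj2 ⟨hP, hU⟩
      have h1 := c.C1 j hjn hjU x (Or.inl rfl) hz
      rw [hd2 j h2 hj2.le] at h1
      exact not_both (d1 p') x hp'pos h1
    · exact hz
  -- the first used one after `k`
  have hex3 : ∃ j, k < j ∧ (PsiAt cs b x y q I1 j ∧ j ∈ I1) := by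
    by_contra hno
    push Not at hno
    have h1 := dih_const c.D1 k n hk.le le_rfl (fun j hj _ hP hU => by
      rcases hj.eq_or_lt with h2 | h2
      · exact hkU (h2 ▸ hU)
      · exact hno j h2 hP hU)
    exact not_both (d1 k) y hky (h1 ▸ c.N1y)
  obtain ⟨M0, hkM, ⟨hMP, hMU⟩, hMfirst⟩ := exists_first _ k hex3
  have hMn : M0 < n := c.F1.sub M0 hMU
  have hd3 : ∀ j, k ≤ j → j ≤ M0 → d1 j = d1 k := by
    intro j hj hjp
    refine dih_const c.D1 k j hj (by omega) (fun i hi hij hP hU => ?_)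
    rcases hi.eq_or_lt with h2 | h2
    · exact hkU (h2 ▸ hU)
    · exact hMfirst i h2 (by omega) ⟨hP, hU⟩
  have hMy : geo cs (h M0) (ee (q M0)) = ee y := by
    rcases (c.D1.psi M0 hMn).1 hMP with hz | hz
    · exfalso
      have h1 := c.A1 M0 hMn hMU x (Or.inl rfl) hz
      rw [hd3 M0 hkM.le le_rfl] at h1
      exact not_both (d1 k) x h1 hφ
    · exact hz
  have hty2 : ∀ j, p' ≤ j → j < M0 → PsiAt cs b x y q I1 j →
      geo cs (h j) (ee (q j)) = ee x := by
    intro j hj1 hj2 hP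
    rcases hj1.eq_or_lt with h2 | h2
    · rw [← h2]; exact hp'x
    have hjn : j < n := by omega
    rcases (c.D1.psi j hjn).1 hP with hz | hz
    · exact hz
    · exfalso
      have hd : d1 j = d1 k := by
        rcases le_total j k with h3 | h3
        · exact hd1 j h2 h3
        · exact hd3 j h3 hj2.le
      have hjU : j ∉ I1 := by
        intro hU
        rcases lt_trichotomy j k with h3 | h3 | h3
        · exact hp'last j h2 h3 ⟨hP, hU⟩
        · exact hkU (h3 ▸ hU)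
        · exact hMfirst j h3 hj2 ⟨hP, hU⟩
      have h1 := c.C1 j hjn hjU y (Or.inr rfl) hz
      rw [hd] at h1
      exact not_both (d1 k) y hky h1
  -- the positions
  obtain ⟨t0, ht0, ht0P, ht0last⟩ := exists_last (fun j => PsiAt cs b x y q I1 j) p'
    ⟨p, hpp', hpP⟩
  have hpt0 : p ≤ t0 := by
    by_contra hc
    exact ht0last p (by omega) hpp' hpP
  obtain ⟨k2, hk2, hk2P, hk2first⟩ := exists_first (fun j => PsiAt cs b x y q I1 j) p'
    ⟨k, hp'k, hPk⟩
  have hk2le : k2 ≤ k := by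
    by_contra hc
    exact hk2first k hp'k (by omega) hPk
  have ht0y := hty1 t0 hpt0 ht0 ht0P
  have hk2x := hty2 k2 hk2.le (by omega) hk2P
  have hPP : ∀ j, j < n → (PsiAt cs b x y q I0 j ↔ PsiAt cs b x y q I1 j) :=
    fun j hj => (c.same j hj).1
  have htyM : ∀ j, t0 < j → j < M0 → PsiAt cs b x y q I0 j →
      geo cs (h j) (ee (q j)) = ee x := by
    intro j hj1 hj2 hP
    rcases lt_or_ge j p' with h2 | h2
    · exact absurd ((hPP j (by omega)).1 hP) (ht0last j hj1 h2)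
    · exact hty2 j h2 hj2 ((hPP j (by omega)).1 hP)
  have hlastU : ∀ u, t0 < u → u < M0 → PsiAt cs b x y q I0 u → u ∈ I0 →
      ∀ v, u < v → v < M0 → ¬ PsiAt cs b x y q I0 v := by
    intro u hu1 hu2 huP huU v hv1 hv2 hvP
    obtain ⟨v', hv'1, hv'P, hv'first⟩ := exists_first (fun j => PsiAt cs b x y q I0 j) u
      ⟨v, hv1, hvP⟩
    have hv'le : v' ≤ v := by
      by_contra hc
      exact hv'first v hv1 (by omega) hvP
    have hux := htyM u hu1 hu2 huP
    have hv'x := htyM v' (by omega) (by omega) hv'P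
    have hun : u < n := by omega
    have e1 := (c.D0.psiD u hun x (Or.inl rfl) hux).1 huU
    have e2 := c.A0 u hun x (Or.inl rfl) hux
    have e3 := c.A0 v' (by omega) x (Or.inl rfl) hv'x
    have hd : d0 v' = d0 (u + 1) :=
      dih_const c.D0 (u + 1) v' (by omega) (by omega)
        (fun i hi hij hP _ => hv'first i (by omega) hij hP)
    refine not_both (d0 v') x e3 ?_
    rw [hd, e1, flip_neg]
    exact neg_nonpos.2 e2
  refine hA2 n q ω b x y I0 I1 t0 p' k2 M0 d0 d1 h c.alt c.xy c.m2 c.m0 c.lx c.ly c.F0 c.F1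
    c.same c.D0 c.D1 ht0 hk2 (by omega) hMn ht0y hMy hp'x hk2x htyM ?_ ?_ ?_ ?_
  · intro j hj1 hj2 hP
    exact hk2first j hj1 hj2 ((hPP j (by omega)).1 hP)
  · intro j _ hj hP hU
    exact c.pos j (by omega) hP hU
  · intro u hu1 hu2 huP huU
    have hk2P0 : PsiAt cs b x y q I0 k2 := (hPP k2 (by omega)).2 hk2P
    have h1 := hlastU u hu1 hu2 huP huU
    refine ⟨?_, ?_⟩
    · by_contra hc
      exact h1 k2 (by omega) (by omega) hk2P0
    · intro u' hu'1 hu'2 hu'P hu'U
      have h2 := hlastU u' hu'1 hu'2 hu'P hu'U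
      rcases lt_trichotomy u u' with h3 | h3 | h3
      · exact absurd hu'P (h1 u' h3 hu'2)
      · exact h3.symm
      · exact absurd huP (h2 u h3 hu2)
  · intro u hu1 hu2 huP huU
    rcases lt_trichotomy u p' with h2 | h2 | h2
    · exact absurd huP (ht0last u hu1 h2)
    · exact h2
    · exfalso
      rcases lt_trichotomy u k with h3 | h3 | h3
      · exact hp'last u h2 h3 ⟨huP, huU⟩
      · exact hkU (h3 ▸ huU)
      · exact hMfirst u h3 hu2 ⟨huP, huU⟩

/-- `M s t = 2`: the plane group maps `e_s`, `e_t` to `± e_s`, `± e_t` -/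
theorem case2 {s t : B} (h2 : M s t = 2) (d : W)
    (hd : d ∈ Subgroup.closure {cs.simple s, cs.simple t}) :
    (geo cs d (ee s) = ee s ∨ geo cs d (ee s) = - ee s) ∧
    (geo cs d (ee t) = ee t ∨ geo cs d (ee t) = - ee t) := by
  have hcc : cc M s t = 0 := by
    unfold cc
    rw [h2]
    simp
  have hcc' : cc M t s = 0 := by rw [cc_symm]; exact hcc
  have hstt : sg M s (ee t) = ee t := by rw [sg_ee, hcc']; simp
  have hts : sg M t (ee s) = ee s := by rw [sg_ee, hcc]; simp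
  induction hd using Subgroup.closure_induction with
  | mem g hg =>
    rcases hg with hg | hg
    · rw [hg, geo_simple, sg_ee_self, hstt]
      exact ⟨Or.inr rfl, Or.inl rfl⟩
    · rw [Set.mem_singleton_iff.1 hg, geo_simple, sg_ee_self, hts]
      exact ⟨Or.inl rfl, Or.inr rfl⟩
  | one =>
    rw [map_one]
    exact ⟨Or.inl rfl, Or.inl rfl⟩
  | mul g1 g2 _ _ h1 h2 =>
    rw [map_mul]
    simp only [Module.End.mul_apply]
    refine ⟨?_, ?_⟩
    · rcases h2.1 with h | h <;> rw [h] <;> rcases h1.1 with h' | h' <;> simp [h']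
    · rcases h2.2 with h | h <;> rw [h] <;> rcases h1.2 with h' | h' <;> simp [h']
  | inv g _ h1 =>
    refine ⟨?_, ?_⟩
    · rcases h1.1 with h | h
      · left
        have := congrArg (geo cs g⁻¹) h
        rw [ginv_g] at this
        exact this.symm
      · right
        have := congrArg (geo cs g⁻¹) h
        rw [ginv_g, map_neg] at this
        exact (neg_eq_iff_eq_neg.2 this).symm
    · rcases h1.2 with h | h
      · left
        have := congrArg (geo cs g⁻¹) h
        rw [ginv_g] at this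
        exact this.symm
      · right
        have := congrArg (geo cs g⁻¹) h
        rw [ginv_g, map_neg] at this
        exact (neg_eq_iff_eq_neg.2 this).symm

theorem simp_ (hB : BaseF cs) (hA2 : S_ALT2 cs) (hD : S_DIH cs) (hR : S_ROOTS cs)
    (hPl : S_PLANE cs) (hAF : S_ALTF cs) (hW : S_WEAK cs) : S_SIMP cs := by
  intro n q ω b s t I0 I1 hAlt hst hm0 hs ht hle hK0 hK1 hsame
  obtain ⟨d0, h, D0, hD1⟩ := hD n q ω b s t hst hm0 hs ht I0 hK0.fac
  obtain ⟨d1, D1⟩ := hD1 I1 hK1.fac hsame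
  have hbs : 0 ≤ geo cs b (ee s) := (geo_nonneg_iff cs b s).2 hs
  have hbt : 0 ≤ geo cs b (ee t) := (geo_nonneg_iff cs b t).2 ht
  have hsup : ∀ d ∈ Subgroup.closure {cs.simple s, cs.simple t}, ∀ z, (z = s ∨ z = t) →
      ∀ i, i ≠ s → i ≠ t → geo cs d (ee z) i = 0 := by
    intro d hd z hz i hi hj
    rw [(hPl s t hst d hd).1 (ee z) i hi hj]
    rcases hz with rfl | rfl <;> simp [ee, hi, hj]
  have hrt : ∀ U d, Dih cs n b s t q U d h → ∀ k, k < n → ∀ z,
      geo cs (h k) (ee (q k)) = ee z →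
      geo cs b⁻¹ (rt cs q U k) = geo cs (d k) (ee z) := by
    intro U d D k hk z hz
    unfold rt
    rw [← Module.End.mul_apply, ← map_mul, D.dec k hk.le, map_mul, Module.End.mul_apply, hz]
  have hrt' : ∀ U d, Dih cs n b s t q U d h → ∀ k, k < n → ∀ z,
      geo cs (h k) (ee (q k)) = ee z →
      rt cs q U k = geo cs b (geo cs (d k) (ee z)) := by
    intro U d D k hk z hz
    rw [← hrt U d D k hk z hz, g_ginv]
  have hA : ∀ U d, IsFac cs n q ω U → Dih cs n b s t q U d h → ∀ k, k < n → k ∈ U → ∀ z,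
      (z = s ∨ z = t) → geo cs (h k) (ee (q k)) = ee z → 0 ≤ geo cs (d k) (ee z) := by
    intro U d hF D k hk hU z hz hkz
    have h1 := ((hR n q ω U hF).1 k hU).1
    have h2 := hrt' U d D k hk z hkz
    rcases hB.rt_sign _ ⟨d k, z, rfl⟩ with h3 | h3
    · exact h3
    · exfalso
      have h4 := plane_nonpos hst b _ (hsup (d k) (D.dmem k hk.le) z hz) hbs hbt h3
      rw [← h2] at h4
      exact hB.rt_ne _ ⟨_, _, rfl⟩ (le_antisymm h4 h1)
  have hB0 : ∀ k, k < n → k ∉ I0 → ∀ z, (z = s ∨ z = t) → geo cs (h k) (ee (q k)) = ee z →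
      0 ≤ geo cs (d0 k) (ee z) := by
    intro k hk hU z _ hkz
    rw [← hrt I0 d0 D0 k hk z hkz]
    exact hK0.pos k hk hU
  have hm1 : 1 ≤ M s t := Nat.one_le_iff_ne_zero.2 hm0
  have hws : geo cs (alt cs s t (M s t))⁻¹ (ee s) ≤ 0 := (hAF s t hst hm0).2.2.1 _ hm1 le_rfl
  have hwt : geo cs (alt cs s t (M s t))⁻¹ (ee t) ≤ 0 := (hAF s t hst hm0).2.2.2.2.1
  have hC1 : ∀ k, k < n → k ∉ I1 → ∀ z, (z = s ∨ z = t) → geo cs (h k) (ee (q k)) = ee z →
      geo cs (d1 k) (ee z) ≤ 0 := by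
    intro k hk hU z hz hkz
    have h1 := hK1.pos k hk hU
    rw [mul_inv_rev, map_mul, Module.End.mul_apply, hrt I1 d1 D1 k hk z hkz] at h1
    rcases hB.rt_sign _ ⟨d1 k, z, rfl⟩ with h3 | h3
    · exfalso
      have h4 := plane_nonpos' hst (alt cs s t (M s t))⁻¹ _
        (hsup (d1 k) (D1.dmem k hk.le) z hz) hws hwt h3
      exact hB.rt_ne _ (hB.rt_geo _ _ ⟨d1 k, z, rfl⟩) (le_antisymm h4 h1)
    · exact h3
  have hωz : ∀ z, (z = s ∨ z = t) → geo cs ω⁻¹ (geo cs b (ee z)) ≤ 0 := by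
    intro z hz
    refine (hW.1 _ _).1 hle _ ⟨b, z, rfl⟩ ?_ ?_
    · rcases hz with rfl | rfl
      · exact hbs
      · exact hbt
    · rw [mul_inv_rev, map_mul, Module.End.mul_apply, ginv_g]
      rcases hz with rfl | rfl
      · exact hws
      · exact hwt
  have hN : ∀ U d, IsFac cs n q ω U → Dih cs n b s t q U d h →
      geo cs (d n) (ee s) ≤ 0 ∧ geo cs (d n) (ee t) ≤ 0 := by
    intro U d hF D
    have hdn : (d n)⁻¹ ∈ Subgroup.closure {cs.simple s, cs.simple t} :=
      Subgroup.inv_mem _ (D.dmem n le_rfl)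
    have hdec : ω⁻¹ * b = (h n)⁻¹ * (d n)⁻¹ := by
      have := D.dec n le_rfl
      rw [hF.prod] at this
      have h2 := congrArg (fun g => g⁻¹) this
      simp only [mul_inv_rev, inv_inv] at h2
      exact h2
    have hz : ∀ z, (z = s ∨ z = t) → geo cs (d n)⁻¹ (ee z) ≤ 0 := by
      intro z hz
      rcases hB.rt_sign _ ⟨(d n)⁻¹, z, rfl⟩ with h3 | h3
      · exfalso
        have h4 := plane_nonneg hst (h n)⁻¹ _ (hsup _ hdn z hz) (D.hs n le_rfl) (D.ht n le_rfl) h3
        have h5 := hωz z hz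
        rw [← Module.End.mul_apply, ← map_mul, hdec, map_mul, Module.End.mul_apply] at h5
        exact hB.rt_ne _ (hB.rt_geo _ _ ⟨(d n)⁻¹, z, rfl⟩) (le_antisymm h5 h4)
      · exact h3
    have h6 := ((hPl s t hst _ hdn).2 (hz s (Or.inl rfl)) (hz t (Or.inr rfl))).2.2
    rw [inv_inv] at h6
    exact h6
  have hpos : ∀ k, k < n → ¬ PsiAt cs b s t q I0 k → k ∉ I0 →
      0 ≤ geo cs (h k) (ee (q k)) := by
    intro k hk hP hU
    unfold PsiAt at hP
    push Not at hP
    obtain ⟨i, hi, hj, hne⟩ := hP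
    have h1 := hK0.pos k hk hU i
    have h2 : geo cs b⁻¹ (rt cs q I0 k) i = geo cs (h k) (ee (q k)) i := by
      unfold rt
      rw [← Module.End.mul_apply, ← map_mul, D0.dec k hk.le, map_mul, Module.End.mul_apply]
      exact (hPl s t hst _ (D0.dmem k hk.le)).1 _ i hi hj
    rw [h2] at h1 hne
    exact hB.rt_pos _ ⟨h k, q k, rfl⟩ i (lt_of_le_of_ne h1 (Ne.symm hne))
  obtain ⟨hN0s, hN0t⟩ := hN I0 d0 hK0.fac D0
  obtain ⟨hN1s, hN1t⟩ := hN I1 d1 hK1.fac D1
  have hA0 : ∀ k, k < n → ∀ z, (z = s ∨ z = t) → geo cs (h k) (ee (q k)) = ee z →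
      0 ≤ geo cs (d0 k) (ee z) := by
    intro k hk z hz hkz
    by_cases hU : k ∈ I0
    · exact hA I0 d0 hK0.fac D0 k hk hU z hz hkz
    · exact hB0 k hk hU z hz hkz
  have main0 : ∀ k, k < n → k ∉ I0 → PsiAt cs b s t q I0 k → ∃ z, (z = s ∨ z = t) ∧
      geo cs (h k) (ee (q k)) = ee z ∧
      (geo cs (d0 k) (ee z) = ee s ∨ geo cs (d0 k) (ee z) = ee t) := by
    intro k hk hU hP
    by_cases h2 : M s t = 2
    · obtain ⟨c1, c2⟩ := case2 (cs := cs) h2 (d0 k) (D0.dmem k hk.le)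
      rcases (D0.psi k hk).1 hP with hz | hz
      · refine ⟨s, Or.inl rfl, hz, ?_⟩
        rcases c1 with h3 | h3
        · exact Or.inl h3
        · exfalso
          have h4 := hA0 k hk s (Or.inl rfl) hz
          rw [h3] at h4
          exact ee_ne_zero s (le_antisymm (neg_nonneg.1 h4) (ee_nonneg s))
      · refine ⟨t, Or.inr rfl, hz, ?_⟩
        rcases c2 with h3 | h3
        · exact Or.inr h3
        · exfalso
          have h4 := hA0 k hk t (Or.inr rfl) hz
          rw [h3] at h4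
          exact ee_ne_zero t (le_antisymm (neg_nonneg.1 h4) (ee_nonneg t))
    · have c : Ctx cs n q ω b s t I0 I1 d0 d1 h :=
        ⟨hAlt, hst, h2, hm0, hs, ht, hK0.fac, hK1.fac, hsame, D0, D1, hA0,
          fun k hk hU => hA I1 d1 hK1.fac D1 k hk hU, hC1, hN0s, hN0t, hN1s, hN1t, hpos⟩
      rcases (D0.psi k hk).1 hP with hz | hz
      · exact ⟨s, Or.inl rfl, hz, core1 hA2 hPl c k hk hU hz⟩
      · exact ⟨t, Or.inr rfl, hz, (core1 hA2 hPl c.swap k hk hU hz).symm⟩
  have main1 : ∀ k, k < n → k ∉ I1 → PsiAt cs b s t q I1 k → ∃ z, (z = s ∨ z = t) ∧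
      geo cs (h k) (ee (q k)) = ee z ∧
      (geo cs (d1 k) (ee z) = - ee s ∨ geo cs (d1 k) (ee z) = - ee t) := by
    intro k hk hU hP
    by_cases h2 : M s t = 2
    · obtain ⟨c1, c2⟩ := case2 (cs := cs) h2 (d1 k) (D1.dmem k hk.le)
      rcases (D1.psi k hk).1 hP with hz | hz
      · refine ⟨s, Or.inl rfl, hz, ?_⟩
        rcases c1 with h3 | h3
        · exfalso
          have h4 := hC1 k hk hU s (Or.inl rfl) hz
          rw [h3] at h4
          exact ee_ne_zero s (le_antisymm h4 (ee_nonneg s))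
        · exact Or.inl h3
      · refine ⟨t, Or.inr rfl, hz, ?_⟩
        rcases c2 with h3 | h3
        · exfalso
          have h4 := hC1 k hk hU t (Or.inr rfl) hz
          rw [h3] at h4
          exact ee_ne_zero t (le_antisymm h4 (ee_nonneg t))
        · exact Or.inr h3
    · have c : Ctx cs n q ω b s t I0 I1 d0 d1 h :=
        ⟨hAlt, hst, h2, hm0, hs, ht, hK0.fac, hK1.fac, hsame, D0, D1, hA0,
          fun k hk hU => hA I1 d1 hK1.fac D1 k hk hU, hC1, hN0s, hN0t, hN1s, hN1t, hpos⟩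
      rcases (D1.psi k hk).1 hP with hz | hz
      · exact ⟨s, Or.inl rfl, hz, core2 hA2 hPl c k hk hU hz⟩
      · exact ⟨t, Or.inr rfl, hz, (core2 hA2 hPl c.swap k hk hU hz).symm⟩
  refine ⟨?_, ?_⟩
  · intro k hk hU hP
    obtain ⟨z, -, hkz, h3⟩ := main0 k hk hU hP
    rw [hrt' I0 d0 D0 k hk z hkz]
    rcases h3 with h3 | h3
    · exact Or.inl (by rw [h3])
    · exact Or.inr (by rw [h3])
  · intro k hk hU hP
    obtain ⟨z, -, hkz, h3⟩ := main1 k hk hU hP
    rw [hrt' I1 d1 D1 k hk z hkz]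
    rcases h3 with h3 | h3
    · exact Or.inl (by rw [h3, map_neg])
    · exact Or.inr (by rw [h3, map_neg])

end Pool.Agent.W591.SC
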